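import Pool.Agent.Helper30.U.Defs2

/-! MP_506470_co : module U-I2 -/

namespace SetHom
namespace Un

variable {V : Type} {G : SimpleGraph V}

/-- module U-I2. -/
theorem ki_T (hW : WG G) (hC : CliqueIn G {0}) {α : Type} [Finite α] {H : SimpleGraph α}
    {U C : Set α} {a b z : α} (h : KI H U C a b) (hz : z ∈ U) (hzC : z ∉ C) (hza : z ≠ a)
    (hzb : z ≠ b) (haz : ¬ H.Adj a z) (hbz : H.Adj b z)
    (ih : ∀ (α' : Type) [Finite α'] (H' : SimpleGraph α') (U' C' : Set α') (a' b' : α'),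
      KI H' U' C' a' b' → s01 H' U' C' a' b' < s01 H U C a b → InW G 0 H' U') :
    InW G 0 H U := by
  classical
  have hca : ∀ c ∈ C, c ≠ a := fun c hc e => h.haC (e ▸ hc)
  have hcb : ∀ c ∈ C, c ≠ b := fun c hc e => h.hbC (e ▸ hc)
  have hcz : ∀ c ∈ C, c ≠ z := fun c hc e => hzC (e ▸ hc)
  have hab := h.ab
  have hba : ¬ H.Adj b a := fun e => h.nab e.symm
  have hza' : ¬ H.Adj z a := fun e => haz e.symm
  obtain ⟨M, hM⟩ : ∃ M, M = Nat.card (α ⊕ α) + 3 := ⟨_, rfl⟩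
  obtain ⟨Cr, hCr⟩ : ∃ Cr : α → α → Prop, Cr = fun u u' =>
      u ∈ C ∨ u' ∈ C ∨ (u' = a ∧ (H.Adj a u ∨ H.Adj b u)) := ⟨_, rfl⟩
  obtain ⟨E, hE⟩ : ∃ E : α ⊕ α → (α ⊕ α) × Fin M → Prop, E = fun u p =>
      (((∃ c ∈ C, u = Sum.inl c ∨ u = Sum.inr c) ∨ u = Sum.inr a) ∧ u = p.1) ∨
      (p.1 = Sum.inr a ∧ ∃ c ∈ C, u = Sum.inl c ∨ u = Sum.inr c) := ⟨_, rfl⟩
  obtain ⟨K, hK⟩ : ∃ K, K = gad H a b b z Cr E := ⟨_, rfl⟩
  obtain ⟨Γ, hΓ⟩ : ∃ Γ, Γ = gU ((α ⊕ α) × Fin M) U a b b z := ⟨_, rfl⟩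
  -- the two copies of the clique
  obtain ⟨C', hC'⟩ : ∃ C' : Set ((α ⊕ α) ⊕ ((α ⊕ α) × Fin M)), C' =
      {u | ∃ c ∈ C, u = Sum.inl (Sum.inl c) ∨ u = Sum.inl (Sum.inr c)} := ⟨_, rfl⟩
  have hmC : ∀ u, u ∈ C' ↔ ∃ c ∈ C, u = Sum.inl (Sum.inl c) ∨ u = Sum.inl (Sum.inr c) := by
    intro u
    rw [hC']
    rfl
  let isJ : (α ⊕ α) ⊕ ((α ⊕ α) × Fin M) → Prop := fun u =>
    (∃ w, w ∈ U ∧ w ∉ C ∧ w ≠ a ∧ w ≠ b ∧ u = Sum.inl (Sum.inl w)) ∨
    (∃ w, w ∈ U ∧ w ∉ C ∧ w ≠ a ∧ w ≠ b ∧ w ≠ z ∧ u = Sum.inl (Sum.inr w)) ∨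
    ∃ p, u = Sum.inr p
  -- adjacencies
  have hEJ1 : ∀ w p, w ∉ C → ¬ E (Sum.inl w) p := by
    intro w p hw
    rw [hE]
    rintro (⟨h1 | h1, h2⟩ | ⟨h1, c, hc, h2⟩)
    · obtain ⟨c, hc, h3⟩ := h1
      simp only [Sum.inl.injEq, reduceCtorEq, or_false] at h3
      exact hw (h3 ▸ hc)
    · simp at h1
    · simp only [Sum.inl.injEq, reduceCtorEq, or_false] at h2
      exact hw (h2 ▸ hc)
  have hEJ2 : ∀ w p, w ∉ C → w ≠ a → ¬ E (Sum.inr w) p := by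
    intro w p hw hwa
    rw [hE]
    rintro (⟨h1 | h1, h2⟩ | ⟨h1, c, hc, h2⟩)
    · obtain ⟨c, hc, h3⟩ := h1
      simp only [Sum.inr.injEq, reduceCtorEq, false_or] at h3
      exact hw (h3 ▸ hc)
    · simp only [Sum.inr.injEq] at h1
      exact hwa h1
    · simp only [Sum.inr.injEq, reduceCtorEq, false_or] at h2
      exact hw (h2 ▸ hc)
  have hEa : ∀ p, E (Sum.inr a) p ↔ p.1 = Sum.inr a := by
    intro p
    rw [hE]
    constructor
    · rintro (⟨-, h2⟩ | ⟨h1, -⟩)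
      · exact h2.symm
      · exact h1
    · intro h1
      exact Or.inl ⟨Or.inr rfl, h1.symm⟩
  have hCrJ : ∀ w w', w ∉ C → w' ∉ C → w' ≠ a → ¬ Cr w w' := by
    intro w w' h1 h2 h3
    rw [hCr]
    simp [h1, h2, h3]
  have hJJ : ∀ u v, isJ u → isJ v → ¬ K.Adj u v := by
    rw [hK]
    rintro u v (⟨w, hw1, hw2, hw3, hw4, rfl⟩ | ⟨w, hw1, hw2, hw3, hw4, hw5, rfl⟩ | ⟨p, rfl⟩)
      (⟨w', hw1', hw2', hw3', hw4', rfl⟩ | ⟨w', hw1', hw2', hw3', hw4', hw5', rfl⟩ | ⟨p', rfl⟩)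
    · rw [gad_11]
      exact h.ind w hw1 hw2 hw3 hw4 w' hw1' hw2' hw3' hw4'
    · rw [gad_12]
      simp [hw3, hw4, hCrJ w w' hw2 hw2' hw3']
    · rw [gad_1p]
      exact hEJ1 w _ hw2
    · rw [gad_21]
      simp [hw3', hw4', hCrJ w' w hw2' hw2 hw3]
    · rw [gad_22]
      exact h.ind w hw1 hw2 hw3 hw4 w' hw1' hw2' hw3' hw4'
    · rw [gad_1p]
      exact hEJ2 w _ hw2 hw3
    · rw [gad_p1]
      exact hEJ1 w' _ hw2'
    · rw [gad_p1]
      exact hEJ2 w' _ hw2' hw3'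
    · exact gad_pp p p'
  have hcase : ∀ u ∈ Γ, u ∈ C' ∨ u = Sum.inl (Sum.inr a) ∨ isJ u := by
    rw [hΓ]
    rintro ((w | w) | p) hu
    · rw [mem_gU_1] at hu
      by_cases hw : w ∈ C
      · exact Or.inl ((hmC _).2 ⟨w, hw, Or.inl rfl⟩)
      · exact Or.inr (Or.inr (Or.inl ⟨w, hu.1, hw, hu.2.1, hu.2.2, rfl⟩))
    · rw [mem_gU_2] at hu
      by_cases hw : w ∈ C
      · exact Or.inl ((hmC _).2 ⟨w, hw, Or.inr rfl⟩)
      · by_cases hwa : w = a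
        · exact Or.inr (Or.inl (by rw [hwa]))
        · exact Or.inr (Or.inr (Or.inr (Or.inl ⟨w, hu.1, hw, hwa, hu.2.1, hu.2.2, rfl⟩)))
    · exact Or.inr (Or.inr (Or.inr (Or.inr ⟨p, rfl⟩)))
  have hC'Γ : C' ⊆ Γ := by
    intro u hu
    rw [hmC] at hu
    rw [hΓ]
    obtain ⟨c, hc, rfl | rfl⟩ := hu
    · rw [mem_gU_1]
      exact ⟨h.sub hc, hca c hc, hcb c hc⟩
    · rw [mem_gU_2]
      exact ⟨h.sub hc, hcb c hc, hcz c hc⟩
  have ha0Γ : (Sum.inl (Sum.inr a) : (α ⊕ α) ⊕ ((α ⊕ α) × Fin M)) ∈ Γ := by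
    rw [hΓ, mem_gU_2]
    exact ⟨h.ha, hab, fun e => hza e.symm⟩
  have hpΓ : ∀ p, (Sum.inr p : (α ⊕ α) ⊕ ((α ⊕ α) × Fin M)) ∈ Γ := by
    intro p
    rw [hΓ]
    exact mem_gU_p
  have hJC : ∀ u, isJ u → u ∉ C' := by
    rintro u (⟨w, hw1, hw2, hw3, hw4, rfl⟩ | ⟨w, hw1, hw2, hw3, hw4, hw5, rfl⟩ | ⟨p, rfl⟩) hu
    · rw [hmC] at hu
      obtain ⟨c, hc, e | e⟩ := hu
      · simp only [Sum.inl.injEq] at e
        exact hw2 (e ▸ hc)
      · simp at e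
    · rw [hmC] at hu
      obtain ⟨c, hc, e | e⟩ := hu
      · simp at e
      · simp only [Sum.inl.injEq, Sum.inr.injEq] at e
        exact hw2 (e ▸ hc)
    · rw [hmC] at hu
      obtain ⟨c, hc, e | e⟩ := hu
      · simp at e
      · simp at e
  have ha0C : (Sum.inl (Sum.inr a) : (α ⊕ α) ⊕ ((α ⊕ α) × Fin M)) ∉ C' := by
    intro hu
    rw [hmC] at hu
    obtain ⟨c, hc, e | e⟩ := hu
    · simp at e
    · simp only [Sum.inl.injEq, Sum.inr.injEq] at e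
      exact h.haC (e ▸ hc)
  have hnC1 : ∀ w, w ∉ C → (Sum.inl (Sum.inl w) : (α ⊕ α) ⊕ ((α ⊕ α) × Fin M)) ∉ C' := by
    intro w hw hu
    rw [hmC] at hu
    obtain ⟨c, hc, e | e⟩ := hu
    · simp only [Sum.inl.injEq] at e
      exact hw (e ▸ hc)
    · simp at e
  have hCC : ∀ u ∈ C', ∀ v ∈ C', u ≠ v → K.Adj u v := by
    intro u hu v hv huv
    rw [hmC] at hu hv
    rw [hK]
    obtain ⟨c, hc, rfl | rfl⟩ := hu <;> obtain ⟨c', hc', rfl | rfl⟩ := hv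
    · rw [gad_11]
      exact h.cc c hc c' hc' (fun e => huv (by rw [e]))
    · rw [gad_12, hCr]
      exact Or.inr (Or.inr ⟨hca c hc, hcb c hc, Or.inl hc⟩)
    · rw [gad_21, hCr]
      exact Or.inr (Or.inr ⟨hca c' hc', hcb c' hc', Or.inl hc'⟩)
    · rw [gad_22]
      exact h.cc c hc c' hc' (fun e => huv (by rw [e]))
  have hCa0 : ∀ c ∈ C', K.Adj c (Sum.inl (Sum.inr a)) := by
    intro u hu
    rw [hmC] at hu
    rw [hK]
    obtain ⟨c, hc, rfl | rfl⟩ := hu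
    · rw [gad_12, hCr]
      exact Or.inr (Or.inr ⟨hca c hc, hcb c hc, Or.inl hc⟩)
    · rw [gad_22]
      exact h.ca c hc
  have hCx : ∀ c ∈ C', K.Adj c (Sum.inl (Sum.inl a)) := by
    intro u hu
    rw [hmC] at hu
    rw [hK]
    obtain ⟨c, hc, rfl | rfl⟩ := hu
    · rw [gad_11]
      exact h.ca c hc
    · rw [gad_21]
      exact Or.inl ⟨rfl, (h.cb c hc).symm⟩
  have hCy : ∀ c ∈ C', K.Adj c (Sum.inl (Sum.inl b)) := by
    intro u hu
    rw [hmC] at hu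
    rw [hK]
    obtain ⟨c, hc, rfl | rfl⟩ := hu
    · rw [gad_11]
      exact h.cb c hc
    · rw [gad_21]
      exact Or.inr (Or.inl ⟨rfl, (h.cov c hc z hz hzC hza hzb (Or.inr hbz)).symm⟩)
  have cov1 : ∀ c ∈ C', ∀ w, w ∈ U → w ∉ C → w ≠ a → w ≠ b → (H.Adj a w ∨ H.Adj b w) →
      K.Adj c (Sum.inl (Sum.inl w)) := by
    intro u hu w hw1 hw2 hw3 hw4 hw5
    rw [hmC] at hu
    rw [hK]
    obtain ⟨c, hc, rfl | rfl⟩ := hu
    · rw [gad_11]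
      exact h.cov c hc w hw1 hw2 hw3 hw4 hw5
    · rw [gad_21, hCr]
      exact Or.inr (Or.inr ⟨hw3, hw4, Or.inr (Or.inl hc)⟩)
  have cov2 : ∀ c ∈ C', ∀ w, w ∈ U → w ∉ C → w ≠ a → w ≠ b → (H.Adj a w ∨ H.Adj b w) →
      K.Adj c (Sum.inl (Sum.inr w)) := by
    intro u hu w hw1 hw2 hw3 hw4 hw5
    rw [hmC] at hu
    rw [hK]
    obtain ⟨c, hc, rfl | rfl⟩ := hu
    · rw [gad_12, hCr]
      exact Or.inr (Or.inr ⟨hca c hc, hcb c hc, Or.inl hc⟩)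
    · rw [gad_22]
      exact h.cov c hc w hw1 hw2 hw3 hw4 hw5
  have cov3 : ∀ c ∈ C', ∀ p : (α ⊕ α) × Fin M, p.1 = Sum.inr a → K.Adj c (Sum.inr p) := by
    intro u hu p hp
    rw [hmC] at hu
    rw [hK]
    obtain ⟨c, hc, rfl | rfl⟩ := hu
    · rw [gad_1p, hE]
      exact Or.inr ⟨hp, c, hc, Or.inl rfl⟩
    · rw [gad_1p, hE]
      exact Or.inr ⟨hp, c, hc, Or.inr rfl⟩
  have a01 : ∀ w, w ∉ C → w ≠ a → w ≠ b → (K.Adj (Sum.inl (Sum.inr a)) (Sum.inl (Sum.inl w)) ↔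
      (H.Adj a w ∨ H.Adj b w)) := by
    intro w h1 h2 h3
    rw [hK, gad_21, hCr]
    simp [h1, h2, h3, h.haC]
  have a02 : ∀ w, K.Adj (Sum.inl (Sum.inr a)) (Sum.inl (Sum.inr w)) ↔ H.Adj a w := by
    intro w
    rw [hK, gad_22]
  have a03 : ∀ p, K.Adj (Sum.inl (Sum.inr a)) (Sum.inr p) ↔ p.1 = Sum.inr a := by
    intro p
    rw [hK, gad_1p]
    exact hEa p
  have x01 : ∀ w, K.Adj (Sum.inl (Sum.inl a)) (Sum.inl (Sum.inl w)) ↔ H.Adj a w := by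
    intro w
    rw [hK, gad_11]
  have x02 : ∀ w, K.Adj (Sum.inl (Sum.inl a)) (Sum.inl (Sum.inr w)) ↔ H.Adj b w := by
    intro w
    rw [hK, gad_12]
    simp [hab]
  have x03 : ∀ p, ¬ K.Adj (Sum.inl (Sum.inl a)) (Sum.inr p) := by
    intro p
    rw [hK, gad_1p]
    exact hEJ1 a p h.haC
  have y01 : ∀ w, K.Adj (Sum.inl (Sum.inl b)) (Sum.inl (Sum.inl w)) ↔ H.Adj b w := by
    intro w
    rw [hK, gad_11]
  have y02 : ∀ w, K.Adj (Sum.inl (Sum.inl b)) (Sum.inl (Sum.inr w)) ↔ H.Adj z w := by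
    intro w
    rw [hK, gad_12]
    simp [hab.symm]
  have y03 : ∀ p, ¬ K.Adj (Sum.inl (Sum.inl b)) (Sum.inr p) := by
    intro p
    rw [hK, gad_1p]
    exact hEJ1 b p h.hbC
  -- a general point of the independent part of an extension
  have hext : ∀ v : (α ⊕ α) ⊕ ((α ⊕ α) × Fin M), ∀ u ∈ insert v Γ, u ∉ C' →
      u ≠ Sum.inl (Sum.inr a) → u ≠ v → isJ u := by
    intro v u hu h1 h2 h3
    exact ((hcase u (hu.resolve_left h3)).resolve_left h1).resolve_left h2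
  have key : ∀ v : (α ⊕ α) ⊕ ((α ⊕ α) × Fin M), v ∉ Γ → v ∉ C' → v ≠ Sum.inl (Sum.inr a) →
      ¬ K.Adj (Sum.inl (Sum.inr a)) v → (∀ c ∈ C', K.Adj c v) →
      (∀ w, w ∈ U → w ∉ C → w ≠ a → w ≠ b → K.Adj v (Sum.inl (Sum.inl w)) →
        H.Adj a w ∨ H.Adj b w) →
      (∀ w, w ∈ U → w ∉ C → w ≠ a → w ≠ b → K.Adj v (Sum.inl (Sum.inr w)) →
        H.Adj a w ∨ H.Adj b w) →
      (∀ p, ¬ K.Adj v (Sum.inr p)) →
      KI K (insert v Γ) C' (Sum.inl (Sum.inr a)) v := by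
    intro v hvΓ hvC hva hnv hCv hv1 hv2 hv3
    refine ⟨fun u hu => Set.mem_insert_of_mem _ (hC'Γ hu), Set.mem_insert_of_mem _ ha0Γ,
      Set.mem_insert _ _, ha0C, hvC, hva.symm, hnv, hCC, hCa0, hCv, ?_, ?_⟩
    · intro u hu h1 h2 h3 u' hu' h1' h2' h3'
      exact hJJ u u' (hext v u hu h1 h2 h3) (hext v u' hu' h1' h2' h3')
    · intro c hc j hj h1 h2 h3 hadj
      rcases hext v j hj h1 h2 h3 with ⟨w, hw1, hw2, hw3, hw4, rfl⟩ |
        ⟨w, hw1, hw2, hw3, hw4, hw5, rfl⟩ | ⟨p, rfl⟩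
      · refine cov1 c hc w hw1 hw2 hw3 hw4 ?_
        rcases hadj with h4 | h4
        · exact (a01 w hw2 hw3 hw4).1 h4
        · exact hv1 w hw1 hw2 hw3 hw4 h4
      · refine cov2 c hc w hw1 hw2 hw3 hw4 ?_
        rcases hadj with h4 | h4
        · exact Or.inl ((a02 w).1 h4)
        · exact hv2 w hw1 hw2 hw3 hw4 h4
      · refine cov3 c hc p ?_
        rcases hadj with h4 | h4
        · exact (a03 p).1 h4
        · exact absurd h4 (hv3 p)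
  have hspos : 0 < s01 H U C a b := by
    rw [s01, Set.ncard_pos (Set.toFinite _)]
    exact ⟨z, hz, hzC, hza, hzb, haz, hbz⟩
  -- the embedding of the base is unique
  have hTc : ∀ u ∈ Γ, u ∉ insert (Sum.inl (Sum.inr a)) C' → isJ u := by
    intro u hu hu'
    rw [Set.mem_insert_iff, not_or] at hu'
    exact ((hcase u hu).resolve_left hu'.2).resolve_left hu'.1
  have hnull : ∀ (u : (α ⊕ α) ⊕ ((α ⊕ α) × Fin M)) (i : Fin M),
      ¬ K.Adj u (Sum.inr (Sum.inl a, i)) := by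
    intro u i
    rw [hK]
    rcases u with u | p
    · rw [gad_1p, hE]
      rintro (⟨h1 | h1, h2⟩ | ⟨h1, -⟩)
      · obtain ⟨c, hc, e | e⟩ := h1
        · rw [e] at h2
          simp only [Sum.inl.injEq] at h2
          exact h.haC (h2 ▸ hc)
        · rw [e] at h2
          simp at h2
      · rw [h1] at h2
        simp at h2
      · simp at h1
    · exact gad_pp _ _
  have hu : Uniq G 0 K Γ := by
    refine hW {0} 0 rfl _ K Γ (insert (Sum.inl (Sum.inr a)) C') ?_ ?_ ?_ ?_ ?_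
    · intro u hu
      rcases hu with rfl | hu
      · exact ha0Γ
      · exact hC'Γ hu
    · intro u hu hu' v hv hv'
      exact hJJ u v (hTc u hu hu') (hTc v hv hv')
    · refine hC _ _ _ ?_
      rintro u (rfl | hu) v (rfl | hv) huv
      · exact absurd rfl huv
      · exact (hCa0 v hv).symm
      · exact hCa0 u hu
      · exact hCC u hu v hv huv
    · intro u _
      have h0 : 0 < M := by omega
      have h1 : 1 < M := by omega
      by_cases hup : u = Sum.inr (Sum.inl a, ⟨0, h0⟩)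
      · refine ⟨Sum.inr (Sum.inl a, ⟨1, h1⟩), hpΓ _, ?_, hnull u _⟩
        rw [hup]
        simp
      · exact ⟨Sum.inr (Sum.inl a, ⟨0, h0⟩), hpΓ _, fun e => hup e.symm, hnull u _⟩
    · refine autPres_of_deg ?_ ?_
      · intro u hu hu' v hv hv'
        exact hJJ u v (hTc u hu hu') (hTc v hv hv')
      · intro t ht
        obtain ⟨w, rfl, hw⟩ : ∃ w : α ⊕ α, t = Sum.inl w ∧
            ((∃ c ∈ C, w = Sum.inl c ∨ w = Sum.inr c) ∨ w = Sum.inr a) := by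
          rcases ht with rfl | ht
          · exact ⟨_, rfl, Or.inr rfl⟩
          · rw [hmC] at ht
            obtain ⟨c, hc, rfl | rfl⟩ := ht
            · exact ⟨_, rfl, Or.inl ⟨c, hc, Or.inl rfl⟩⟩
            · exact ⟨_, rfl, Or.inl ⟨c, hc, Or.inr rfl⟩⟩
        have hT : (insert (Sum.inl (Sum.inr a)) C').ncard ≤ Nat.card (α ⊕ α) := by
          rw [← Set.ncard_univ]
          have h6 : insert (Sum.inl (Sum.inr a)) C' ⊆
              (Sum.inl : α ⊕ α → (α ⊕ α) ⊕ ((α ⊕ α) × Fin M)) '' Set.univ := by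
            rintro u (rfl | hu)
            · exact ⟨_, trivial, rfl⟩
            · rw [hmC] at hu
              obtain ⟨c, hc, rfl | rfl⟩ := hu
              · exact ⟨_, trivial, rfl⟩
              · exact ⟨_, trivial, rfl⟩
          exact (Set.ncard_le_ncard h6 (Set.toFinite _)).trans (Set.ncard_image_le (Set.toFinite _))
        have h7 : ((fun i : Fin M => (Sum.inr (w, i) : (α ⊕ α) ⊕ ((α ⊕ α) × Fin M))) ''
            Set.univ).ncard = M := by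
          rw [Set.ncard_image_of_injective _ (by
            intro i j e
            simpa using e)]
          simp [Set.ncard_univ]
        have h8 : (fun i : Fin M => (Sum.inr (w, i) : (α ⊕ α) ⊕ ((α ⊕ α) × Fin M))) '' Set.univ ⊆
            {j | j ∈ Γ ∧ j ∉ insert (Sum.inl (Sum.inr a)) C' ∧ K.Adj (Sum.inl w) j} := by
          rintro _ ⟨i, -, rfl⟩
          refine ⟨hpΓ _, ?_, ?_⟩
          · rw [Set.mem_insert_iff, not_or]
            exact ⟨by simp, hJC _ (Or.inr (Or.inr ⟨_, rfl⟩))⟩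
          · rw [hK, gad_1p, hE]
            exact Or.inl ⟨hw, rfl⟩
        have h9 := Set.ncard_le_ncard h8 (Set.toFinite _)
        rw [h7] at h9
        omega
  have hxΓ : (Sum.inl (Sum.inl a) : (α ⊕ α) ⊕ ((α ⊕ α) × Fin M)) ∉ Γ := by
    rw [hΓ]
    simp
  have hyΓ : (Sum.inl (Sum.inl b) : (α ⊕ α) ⊕ ((α ⊕ α) × Fin M)) ∉ Γ := by
    rw [hΓ]
    simp
  have hx : InW G 0 K (insert (Sum.inl (Sum.inl a)) Γ) := by
    refine ih _ K _ C' (Sum.inl (Sum.inr a)) (Sum.inl (Sum.inl a)) (key _ hxΓ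
      (hnC1 a h.haC) (by simp) ?_ hCx ?_ ?_ x03) ?_
    · intro e
      exact hba ((x02 a).1 e.symm)
    · intro w _ _ _ _ e
      exact Or.inl ((x01 w).1 e)
    · intro w _ _ _ _ e
      exact Or.inr ((x02 w).1 e)
    · -- the count
      have hsub : {j | j ∈ insert (Sum.inl (Sum.inl a)) Γ ∧ j ∉ C' ∧
          j ≠ Sum.inl (Sum.inr a) ∧ j ≠ Sum.inl (Sum.inl a) ∧
          ¬ K.Adj (Sum.inl (Sum.inr a)) j ∧ K.Adj (Sum.inl (Sum.inl a)) j} ⊆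
          (fun w : α => (Sum.inl (Sum.inr w) : (α ⊕ α) ⊕ ((α ⊕ α) × Fin M))) ''
            ({j | j ∈ U ∧ j ∉ C ∧ j ≠ a ∧ j ≠ b ∧ ¬ H.Adj a j ∧ H.Adj b j} \ {z}) := by
        rintro j ⟨hj, h1, h2, h3, h4, h5⟩
        rcases hext _ j hj h1 h2 h3 with ⟨w, hw1, hw2, hw3, hw4, rfl⟩ |
          ⟨w, hw1, hw2, hw3, hw4, hw5, rfl⟩ | ⟨p, rfl⟩
        · exact absurd ((a01 w hw2 hw3 hw4).2 (Or.inl ((x01 w).1 h5))) h4
        · refine ⟨w, ⟨⟨hw1, hw2, hw3, hw4, ?_, ?_⟩, hw5⟩, rfl⟩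
          · intro e
            exact h4 ((a02 w).2 e)
          · exact (x02 w).1 h5
        · exact absurd h5 (x03 p)
      have h1 := (Set.ncard_le_ncard hsub (Set.toFinite _)).trans
        (Set.ncard_image_le (Set.toFinite _))
      refine lt_of_le_of_lt h1 ?_
      rw [s01]
      refine Set.ncard_lt_ncard ?_ (Set.toFinite _)
      refine ⟨Set.sdiff_subset, fun e => ?_⟩
      exact (e ⟨hz, hzC, hza, hzb, haz, hbz⟩).2 rfl
  have hy : InW G 0 K (insert (Sum.inl (Sum.inl b)) Γ) := by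
    refine ih _ K _ C' (Sum.inl (Sum.inr a)) (Sum.inl (Sum.inl b)) (key _ hyΓ
      (hnC1 b h.hbC) (by simp) ?_ hCy ?_ ?_ y03) ?_
    · intro e
      exact hza' ((y02 a).1 e.symm)
    · intro w _ _ _ _ e
      exact Or.inr ((y01 w).1 e)
    · intro w hw1 hw2 hw3 hw4 e
      exact absurd ((y02 w).1 e) (h.ind z hz hzC hza hzb w hw1 hw2 hw3 hw4)
    · have hempty : {j | j ∈ insert (Sum.inl (Sum.inl b)) Γ ∧ j ∉ C' ∧
          j ≠ Sum.inl (Sum.inr a) ∧ j ≠ Sum.inl (Sum.inl b) ∧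
          ¬ K.Adj (Sum.inl (Sum.inr a)) j ∧ K.Adj (Sum.inl (Sum.inl b)) j} = ∅ := by
        rw [Set.eq_empty_iff_forall_notMem]
        rintro j ⟨hj, h1, h2, h3, h4, h5⟩
        rcases hext _ j hj h1 h2 h3 with ⟨w, hw1, hw2, hw3, hw4, rfl⟩ |
          ⟨w, hw1, hw2, hw3, hw4, hw5, rfl⟩ | ⟨p, rfl⟩
        · exact h4 ((a01 w hw2 hw3 hw4).2 (Or.inr ((y01 w).1 h5)))
        · exact h.ind z hz hzC hza hzb w hw1 hw2 hw3 hw4 ((y02 w).1 h5)
        · exact y03 p h5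
      have h0 : s01 K (insert (Sum.inl (Sum.inl b)) Γ) C' (Sum.inl (Sum.inr a))
          (Sum.inl (Sum.inl b)) = 0 := by
        rw [s01, hempty, Set.ncard_empty]
      rw [h0]
      exact hspos
  subst hK
  subst hΓ
  refine t1 (D := ∅) (C := Cr) (E := E) hab h.nab hbz (Set.empty_subset _) (by simp)
    (Or.inl (by simp)) (by simpa using hu) ⟨Sum.inl (Sum.inl z), ?_, ?_⟩ hx hy
  · rw [mem_gU_1]
    exact ⟨hz, hza, hzb⟩
  · intro e
    exact haz ((x01 z).1 (e.2 ((y01 z).2 hbz)))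

end Un
end SetHom
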