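import Pool.Agent.Helper30.U.Defs2

/-! MP_506470_co : module U-C1 -/

namespace SetHom
namespace Un

variable {V : Type} {G : SimpleGraph V}

/-- module U-C1 (one step for coP_3). -/
theorem cp3_step (hW : WG G) {S : Set ℕ} {r : ℕ} (hr : r ∈ S) (hI : Ind3In G S)
    (Sg Sg' : Prop → Prop → Prop → Prop) (f f' : Prop → Prop → Prop → Prop)
    (h1 : ∀ x y z, Sg x y z → Sg' (f x y z) y z) (h2 : ∀ x y z, Sg x y z → Sg' x y (f' x y z))
    (h3 : Sg' False False True) (h4 : Sg' False False False) (pa pb : Prop)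
    (h5 : Sg' True pa pb) (h : CP3C G r Sg') : CP3C G r Sg := by
  classical
  intro α _ H U x a b ht hab hxa hxb
  obtain ⟨hxU, haU, hbU, hxa', hxb', hab', hind, hst⟩ := ht
  have hbx : ¬ H.Adj b x := fun e => hxb e.symm
  have hax : ¬ H.Adj a x := fun e => hxa e.symm
  obtain ⟨C, hC⟩ : ∃ C : α → α → Prop, C = fun z z' =>
      (z' = x ∧ z ≠ b ∧ f (H.Adj x z) (H.Adj a z) (H.Adj b z)) ∨
      (z = b ∧ z' ≠ x ∧ f' (H.Adj x z') (H.Adj a z') (H.Adj b z')) := ⟨_, rfl⟩
  obtain ⟨E, hE⟩ : ∃ E : α ⊕ α → Bool × Fin 3 → Prop, E = fun u p =>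
      (p.1 = true ∧ u = Sum.inl b) ∨ (p.1 = false ∧ (u = Sum.inr x ∨
        (u = Sum.inl a ∧ pa) ∨ (u = Sum.inl b ∧ pb))) := ⟨_, rfl⟩
  have hCbx : ¬ C b x := by rw [hC]; simp
  have hCzx : ∀ z, z ≠ b → (C z x ↔ f (H.Adj x z) (H.Adj a z) (H.Adj b z)) := by
    intro z hz
    rw [hC]
    simp [hz]
  have hCbz : ∀ z, z ≠ x → (C b z ↔ f' (H.Adj x z) (H.Adj a z) (H.Adj b z)) := by
    intro z hz
    rw [hC]
    simp [hz]
  have hCzz : ∀ z z', z ≠ b → z' ≠ x → ¬ C z z' := by
    intro z z' hz hz'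
    rw [hC]
    simp [hz, hz']
  have hE1 : ∀ z p, z ≠ a → z ≠ b → ¬ E (Sum.inl z) p := by
    intro z p h1 h2
    rw [hE]
    simp [h1, h2]
  have hE2 : ∀ z p, z ≠ x → ¬ E (Sum.inr z) p := by
    intro z p h1
    rw [hE]
    simp [h1]
  -- the points outside of the cover
  let isJ : (α ⊕ α) ⊕ (Bool × Fin 3) → Prop := fun u =>
    (∃ z, z ∈ U ∧ z ≠ x ∧ z ≠ a ∧ z ≠ b ∧ u = Sum.inl (Sum.inl z)) ∨
    (∃ z, z ∈ U ∧ z ≠ x ∧ z ≠ a ∧ z ≠ b ∧ u = Sum.inl (Sum.inr z)) ∨ ∃ p, u = Sum.inr p
  have hJJ : ∀ u v, isJ u → isJ v → ¬ (gad H x a b a C E).Adj u v := by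
    rintro u v (⟨z, hz1, hz2, hz3, hz4, rfl⟩ | ⟨z, hz1, hz2, hz3, hz4, rfl⟩ | ⟨p, rfl⟩)
      (⟨z', hz1', hz2', hz3', hz4', rfl⟩ | ⟨z', hz1', hz2', hz3', hz4', rfl⟩ | ⟨p', rfl⟩)
    · rw [gad_11]
      exact hind z hz1 hz2 hz3 hz4 z' hz1' hz2' hz3' hz4'
    · rw [gad_12]
      simp [hz2, hz3, hCzz z z' hz4 hz2']
    · rw [gad_1p]
      exact hE1 z _ hz3 hz4
    · rw [gad_21]
      simp [hz2', hz3', hCzz z' z hz4' hz2]
    · rw [gad_22]
      exact hind z hz1 hz2 hz3 hz4 z' hz1' hz2' hz3' hz4'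
    · rw [gad_1p]
      exact hE2 z _ hz2
    · rw [gad_p1]
      exact hE1 z' _ hz3' hz4'
    · rw [gad_p1]
      exact hE2 z' _ hz2'
    · exact gad_pp p p'
  have hcase : ∀ u ∈ gU (Bool × Fin 3) U x a b a, u = Sum.inl (Sum.inl b) ∨
      u = Sum.inl (Sum.inr x) ∨ isJ u := by
    rintro ((z | z) | p) hu
    · rw [mem_gU_1] at hu
      by_cases hz : z = b
      · left
        rw [hz]
      · exact Or.inr (Or.inr (Or.inl ⟨z, hu.1, hu.2.1, hu.2.2, hz, rfl⟩))
    · rw [mem_gU_2] at hu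
      by_cases hz : z = x
      · right; left
        rw [hz]
      · exact Or.inr (Or.inr (Or.inr (Or.inl ⟨z, hu.1, hz, hu.2.2, hu.2.1, rfl⟩)))
    · exact Or.inr (Or.inr (Or.inr (Or.inr ⟨p, rfl⟩)))
  have hbG : (Sum.inl (Sum.inl b) : (α ⊕ α) ⊕ (Bool × Fin 3)) ∈ gU (Bool × Fin 3) U x a b a := by
    simp [hbU, hxb'.symm, hab'.symm]
  have hxG : (Sum.inl (Sum.inr x) : (α ⊕ α) ⊕ (Bool × Fin 3)) ∈ gU (Bool × Fin 3) U x a b a := by
    simp [hxU, hxb', hxa']
  have hbx12 : ¬ (gad H x a b a C E).Adj (Sum.inl (Sum.inl b)) (Sum.inl (Sum.inr x)) := by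
    rw [gad_12]
    simp [hxb'.symm, hab'.symm, hCbx]
  have hx1b1 : ¬ (gad H x a b a C E).Adj (Sum.inl (Sum.inl x)) (Sum.inl (Sum.inl b)) := by
    rw [gad_11]
    exact hxb
  have hx1x2 : ¬ (gad H x a b a C E).Adj (Sum.inl (Sum.inl x)) (Sum.inl (Sum.inr x)) := by
    rw [gad_12]
    simp [hxa', hbx]
  have hyx2 : ¬ (gad H x a b a C E).Adj (Sum.inl (Sum.inl a)) (Sum.inl (Sum.inr x)) := by
    rw [gad_12]
    simp [hxa'.symm, hax]
  -- the three pins of a point of the cover
  have hu : Uniq G r (gad H x a b a C E) (gU (Bool × Fin 3) U x a b a) := by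
    refine hW S r hr _ (gad H x a b a C E) (gU (Bool × Fin 3) U x a b a)
      {Sum.inl (Sum.inl b), Sum.inl (Sum.inr x)} ?_ ?_ ?_ ?_ ?_
    · rintro u (rfl | rfl)
      · exact hbG
      · exact hxG
    · intro u hu hu' v hv hv'
      simp only [Set.mem_insert_iff, Set.mem_singleton_iff, not_or] at hu' hv'
      exact hJJ u v (((hcase u hu).resolve_left hu'.1).resolve_left hu'.2)
        (((hcase v hv).resolve_left hv'.1).resolve_left hv'.2)
    · refine hI _ _ _ ?_ ?_
      · rintro u (rfl | rfl) v (rfl | rfl)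
        · exact SimpleGraph.irrefl _
        · exact hbx12
        · exact fun e => hbx12 e.symm
        · exact SimpleGraph.irrefl _
      · exact (Set.ncard_insert_le _ _).trans (by simp)
    · intro u hu
      rcases hcase u hu with rfl | rfl | hJ
      · exact ⟨_, hxG, by simp, hbx12⟩
      · exact ⟨_, hbG, by simp, fun e => hbx12 e.symm⟩
      · by_cases hup : u = Sum.inr (true, 0)
        · refine ⟨Sum.inr (true, 1), mem_gU_p, ?_, hJJ _ _ hJ (Or.inr (Or.inr ⟨_, rfl⟩))⟩
          rw [hup]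
          simp
        · exact ⟨Sum.inr (true, 0), mem_gU_p, fun e => hup e.symm,
            hJJ _ _ hJ (Or.inr (Or.inr ⟨_, rfl⟩))⟩
    · refine autPres_of_deg ?_ ?_
      · intro u hu hu' v hv hv'
        simp only [Set.mem_insert_iff, Set.mem_singleton_iff, not_or] at hu' hv'
        exact hJJ u v (((hcase u hu).resolve_left hu'.1).resolve_left hu'.2)
          (((hcase v hv).resolve_left hv'.1).resolve_left hv'.2)
      · intro t ht
        have hT : ({Sum.inl (Sum.inl b), Sum.inl (Sum.inr x)} :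
            Set ((α ⊕ α) ⊕ (Bool × Fin 3))).ncard ≤ 2 := by
          refine (Set.ncard_insert_le _ _).trans ?_
          simp
        have key : ∀ w : Bool, (∀ i : Fin 3, (gad H x a b a C E).Adj t (Sum.inr (w, i))) →
            3 ≤ {j | j ∈ gU (Bool × Fin 3) U x a b a ∧
              j ∉ ({Sum.inl (Sum.inl b), Sum.inl (Sum.inr x)} :
                Set ((α ⊕ α) ⊕ (Bool × Fin 3))) ∧ (gad H x a b a C E).Adj t j}.ncard := by
          intro w hw
          have h6 : ((fun i : Fin 3 => (Sum.inr (w, i) : (α ⊕ α) ⊕ (Bool × Fin 3))) ''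
              Set.univ).ncard = 3 := by
            rw [Set.ncard_image_of_injective _ (by
              intro i j e
              simpa using e)]
            simp [Set.ncard_univ]
          refine h6.ge.trans (Set.ncard_le_ncard ?_ (Set.toFinite _))
          rintro _ ⟨i, -, rfl⟩
          exact ⟨mem_gU_p, by simp, hw i⟩
        refine lt_of_le_of_lt hT ?_
        rcases ht with rfl | rfl
        · refine lt_of_lt_of_le (by norm_num) (key true ?_)
          intro i
          rw [gad_1p, hE]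
          simp
        · refine lt_of_lt_of_le (by norm_num) (key false ?_)
          intro i
          rw [gad_1p, hE]
          simp
  refine t1 (D := ∅) (C := C) (E := E) hxa' hxa hab.symm (Set.empty_subset _) (by simp)
    (Or.inl (by simp)) (by simpa using hu) ⟨_, hbG, ?_⟩ ?_ ?_
  · intro e
    exact hx1b1 (e.2 hab)
  · -- the copy with `x`
    have hPS : PS G S (gad H x a b a C E)
        {Sum.inl (Sum.inl x), Sum.inl (Sum.inl b), Sum.inl (Sum.inr x)} := by
      refine hI _ _ _ ?_ ?_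
      · rintro u (rfl | rfl | rfl) v (rfl | rfl | rfl)
        · exact SimpleGraph.irrefl _
        · exact hx1b1
        · exact hx1x2
        · exact fun e => hx1b1 e.symm
        · exact SimpleGraph.irrefl _
        · exact hbx12
        · exact fun e => hx1x2 e.symm
        · exact fun e => hbx12 e.symm
        · exact SimpleGraph.irrefl _
      · refine (Set.ncard_insert_le _ _).trans ?_
        have := (Set.ncard_insert_le (Sum.inl (Sum.inl b) : (α ⊕ α) ⊕ (Bool × Fin 3))
          {Sum.inl (Sum.inr x)})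
        simp only [Set.ncard_singleton] at this
        omega
    refine hPS.inW ?_ hr
    have hc2 : ∀ u ∈ insert (Sum.inl (Sum.inl x)) (gU (Bool × Fin 3) U x a b a),
        u ∉ ({Sum.inl (Sum.inl x), Sum.inl (Sum.inl b), Sum.inl (Sum.inr x)} :
          Set ((α ⊕ α) ⊕ (Bool × Fin 3))) → isJ u := by
      intro u hu hu'
      simp only [Set.mem_insert_iff, Set.mem_singleton_iff, not_or] at hu'
      exact ((hcase u (hu.resolve_left hu'.1)).resolve_left hu'.2.1).resolve_left hu'.2.2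
    intro u hu hu' v hv hv'
    exact hJJ u v (hc2 u hu hu') (hc2 v hv hv')
  · -- the copy with `a`
    have hc2 : ∀ u ∈ insert (Sum.inl (Sum.inl a)) (gU (Bool × Fin 3) U x a b a),
        u ≠ Sum.inl (Sum.inr x) → u ≠ Sum.inl (Sum.inl a) → u ≠ Sum.inl (Sum.inl b) →
          isJ u := by
      intro u hu h6 h7 h8
      exact ((hcase u (hu.resolve_left h7)).resolve_left h8).resolve_left h6
    refine h _ (gad H x a b a C E) _ (Sum.inl (Sum.inr x)) (Sum.inl (Sum.inl a))
      (Sum.inl (Sum.inl b)) ⟨Set.mem_insert_of_mem _ hxG, Set.mem_insert _ _,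
        Set.mem_insert_of_mem _ hbG, by simp, by simp, by simpa using hab', ?_, ?_⟩ hab
      (fun e => hyx2 e.symm) (fun e => hbx12 e.symm)
    · intro u hu h6 h7 h8 v hv h9 h10 h11
      exact hJJ u v (hc2 u hu h6 h7 h8) (hc2 v hv h9 h10 h11)
    · intro u hu h6 h7 h8
      rcases hc2 u hu h6 h7 h8 with ⟨z, hz1, hz2, hz3, hz4, rfl⟩ |
        ⟨z, hz1, hz2, hz3, hz4, rfl⟩ | ⟨⟨w, i⟩, rfl⟩
      · have e1 : (gad H x a b a C E).Adj (Sum.inl (Sum.inr x)) (Sum.inl (Sum.inl z)) =
            f (H.Adj x z) (H.Adj a z) (H.Adj b z) := by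
          apply propext
          rw [gad_21, ← hCzx z hz4]
          simp [hz2, hz3]
        rw [e1]
        exact h1 _ _ _ (hst z hz1 hz2 hz3 hz4)
      · have e1 : (gad H x a b a C E).Adj (Sum.inl (Sum.inl a)) (Sum.inl (Sum.inr z)) =
            H.Adj a z := by
          apply propext
          rw [gad_12]
          simp [hxa'.symm]
        have e2 : (gad H x a b a C E).Adj (Sum.inl (Sum.inl b)) (Sum.inl (Sum.inr z)) =
            f' (H.Adj x z) (H.Adj a z) (H.Adj b z) := by
          apply propext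
          rw [gad_12, ← hCbz z hz2]
          simp [hxb'.symm, hab'.symm]
        rw [e1, e2]
        exact h2 _ _ _ (hst z hz1 hz2 hz3 hz4)
      · have e1 : (gad H x a b a C E).Adj (Sum.inl (Sum.inr x)) (Sum.inr (w, i)) =
            (w = false) := by
          apply propext
          rw [gad_1p, hE]
          simp
        have e2 : (gad H x a b a C E).Adj (Sum.inl (Sum.inl a)) (Sum.inr (w, i)) =
            (w = false ∧ pa) := by
          apply propext
          rw [gad_1p, hE]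
          simp [hab']
        have e3 : (gad H x a b a C E).Adj (Sum.inl (Sum.inl b)) (Sum.inr (w, i)) =
            (w = true ∨ (w = false ∧ pb)) := by
          apply propext
          rw [gad_1p, hE]
          simp [hab'.symm]
        rw [e1, e2, e3]
        cases w
        · simpa using h5
        · simpa using h3

end Un
end SetHom
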